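import Pool.Agent.Helper7.KT.St

set_option autoImplicit false

namespace Pool.Agent.Helper5.KT

open Finset SimpleGraph Filter Topology
open EX Pool.Agent.Helper7.KT
open scoped Classical

theorem card_places (k : ℕ) (b l l' : Fin (k + 1)) (hl : l ≠ b) (hl' : l' ≠ b) (hll : l ≠ l') :
    Fintype.card {i : Fin (k + 1) // i ≠ b ∧ i ≠ l ∧ i ≠ l'} = k - 2 := by
  rw [Fintype.card_subtype]
  have h1 : (univ.filter fun i : Fin (k + 1) => i ≠ b ∧ i ≠ l ∧ i ≠ l') =
      (((univ : Finset (Fin (k + 1))).erase b).erase l).erase l' := by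
    ext i
    simp only [Finset.mem_filter, Finset.mem_univ, true_and, Finset.mem_erase, and_true]
    tauto
  rw [h1, Finset.card_erase_of_mem, Finset.card_erase_of_mem, Finset.card_erase_of_mem,
    Finset.card_univ, Fintype.card_fin]
  · omega
  · exact Finset.mem_univ _
  · exact Finset.mem_erase.2 ⟨hl, Finset.mem_univ _⟩
  · exact Finset.mem_erase.2 ⟨hll.symm, Finset.mem_erase.2 ⟨hl', Finset.mem_univ _⟩⟩

theorem hFAB : StFAB := by
  intro n k Γ F b l l' δ hδ hl hl' hll hinj hcen hadj hdeg
  have hn0 : (0 : ℝ) ≤ (n : ℝ) := Nat.cast_nonneg n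
  have hpow : (0 : ℝ) ≤ (δ * n) ^ (k - 2) := pow_nonneg (mul_nonneg hδ hn0) _
  have key : ∀ y : Fin n × Fin n,
      (((F.filter fun e => (e l, e l') = y).card : ℕ) : ℝ) ≤ (δ * n) ^ (k - 2) := by
    intro y
    rcases (F.filter fun e => (e l, e l') = y).eq_empty_or_nonempty with h0 | ⟨e₀, he₀⟩
    · rw [h0]
      simpa using hpow
    · rw [mem_filter] at he₀
      obtain ⟨he₀F, he₀y⟩ := he₀
      have hc : ∀ e ∈ F.filter (fun e => (e l, e l') = y), e b = e₀ b := by
        intro e he
        rw [mem_filter] at he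
        obtain ⟨heF, hey⟩ := he
        have h3 : (e l, e l') = (e₀ l, e₀ l') := hey.trans he₀y.symm
        rw [Prod.mk.injEq] at h3
        exact hcen e heF e₀ he₀F h3.1 h3.2
      have h4 : (F.filter fun e => (e l, e l') = y).card ≤
          (Fintype.piFinset fun _ : {i : Fin (k + 1) // i ≠ b ∧ i ≠ l ∧ i ≠ l'} =>
            nb Γ univ (e₀ b)).card := by
        refine card_le_card_of_injOn (fun e i => e i.1) ?_ ?_
        · intro e he
          have he' : e ∈ F.filter (fun e => (e l, e l') = y) := by simpa using he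
          have h5 := hc e he'
          rw [mem_filter] at he'
          simp only [Finset.mem_coe, Fintype.mem_piFinset]
          intro i
          unfold nb
          rw [mem_filter]
          refine ⟨mem_univ _, ?_⟩
          rw [← h5]
          exact hadj e he'.1 i.1 i.2.1
        · intro e he e' he' hee
          have he1 : e ∈ F.filter (fun e => (e l, e l') = y) := by simpa using he
          have he2 : e' ∈ F.filter (fun e => (e l, e l') = y) := by simpa using he'
          rw [mem_filter] at he1 he2
          have h3 : (e l, e l') = (e' l, e' l') := he1.2.trans he2.2.symm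
          rw [Prod.mk.injEq] at h3
          refine hinj e he1.1 e' he2.1 ?_
          intro i hi
          by_cases h6 : i = l
          · rw [h6]; exact h3.1
          · by_cases h7 : i = l'
            · rw [h7]; exact h3.2
            · exact congrFun hee ⟨i, hi, h6, h7⟩
      have h40 : (Fintype.piFinset fun _ : {i : Fin (k + 1) // i ≠ b ∧ i ≠ l ∧ i ≠ l'} =>
            nb Γ univ (e₀ b)).card = (nb Γ univ (e₀ b)).card ^ (k - 2) := by
        rw [Fintype.card_piFinset, Finset.prod_const, Finset.card_univ,
          card_places k b l l' hl hl' hll]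
      rw [h40] at h4
      have h8 : (((F.filter fun e => (e l, e l') = y).card : ℕ) : ℝ) ≤
          ((dg Γ univ (e₀ b) : ℕ) : ℝ) ^ (k - 2) := by
        have h9 : (((F.filter fun e => (e l, e l') = y).card : ℕ) : ℝ) ≤
            (((nb Γ univ (e₀ b)).card ^ (k - 2) : ℕ) : ℝ) := by exact_mod_cast h4
        rw [Nat.cast_pow] at h9
        exact h9
      refine h8.trans ?_
      exact pow_le_pow_left₀ (Nat.cast_nonneg _) (hdeg e₀ he₀F) _
  have h1 : F.card = ∑ y : Fin n × Fin n, (F.filter fun e => (e l, e l') = y).card :=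
    card_eq_sum_card_fiberwise (fun e _ => by simp)
  rw [h1, Nat.cast_sum]
  calc (∑ y : Fin n × Fin n, (((F.filter fun e => (e l, e l') = y).card : ℕ) : ℝ))
      ≤ ∑ _y : Fin n × Fin n, (δ * n) ^ (k - 2) := sum_le_sum fun y _ => key y
    _ = (n : ℝ) ^ 2 * (δ * n) ^ (k - 2) := by
        rw [sum_const, card_univ, Fintype.card_prod, Fintype.card_fin, nsmul_eq_mul]
        push_cast
        ring

end Pool.Agent.Helper5.KT
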